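import Pool.Agent.Helper10.Pic.Lib

set_option autoImplicit false

/-!
# Reduction theory for the Picard modular group `U(2,1; ℤ[ω])`
-/

namespace Pool.Agent.Helper86.Pic

open Pool.Agent.Helper10.Pic Topology
open scoped ComplexConjugate

theorem sq3 : Real.sqrt 3 * Real.sqrt 3 = 3 := Real.mul_self_sqrt (by norm_num)

theorem sq3_nonneg : 0 ≤ Real.sqrt 3 := Real.sqrt_nonneg 3

theorem sq3_le : Real.sqrt 3 ≤ 2 := by
  nlinarith [sq3, sq3_nonneg]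

theorem om_re : om.re = -1 / 2 := rfl
theorem om_im : om.im = Real.sqrt 3 / 2 := rfl
theorem th_re : th.re = 0 := rfl
theorem th_im : th.im = Real.sqrt 3 := rfl

theorem eis_re (a b : ℤ) : ((a : ℂ) + b * om).re = a - b / 2 := by
  simp [om_re, om_im, Complex.add_re, Complex.mul_re]
  ring

theorem eis_im (a b : ℤ) : ((a : ℂ) + b * om).im = b * (Real.sqrt 3 / 2) := by
  simp [om_re, om_im, Complex.add_im, Complex.mul_im]

theorem eis_norm (a b : ℤ) : ‖(a : ℂ) + b * om‖ ^ 2 = ((a ^ 2 - a * b + b ^ 2 : ℤ) : ℝ) := by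
  rw [Complex.sq_norm, Complex.normSq_apply, eis_re, eis_im]
  push_cast
  linear_combination (b : ℝ) ^ 2 / 4 * sq3

theorem eis_int (a : ℤ) : (a : ℂ) ∈ Eis := ⟨a, 0, by simp⟩

theorem om_mem : om ∈ Eis := ⟨0, 1, by simp⟩

theorem om_mul (a : ℤ) : (a : ℂ) * om ∈ Eis := ⟨0, a, by simp⟩

theorem th_eq : th = 1 + 2 * om := by
  apply Complex.ext
  · simp [th_re, om_re, om_im]
    norm_num
  · simp [th_im, om_re, om_im]
    ring

theorem th_mul (k : ℤ) : th * k ∈ Eis := by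
  refine ⟨k, 2 * k, ?_⟩
  rw [th_eq]
  push_cast
  ring

theorem conj_om : conj om = -1 - om := by
  apply Complex.ext
  · simp [om_re]
    norm_num
  · simp

/-- finitely many Eisenstein integers in a ball -/
theorem eis_finite (ζ : ℂ) (r : ℝ) : {b : ℂ | b ∈ Eis ∧ ‖ζ - b‖ ≤ r}.Finite := by
  obtain ⟨N, hN⟩ := exists_nat_gt (2 * (‖ζ‖ + r))
  refine ((Set.finite_Icc (-(N : ℤ)) N).prod (Set.finite_Icc (-(N : ℤ)) N)).image
    (fun x : ℤ × ℤ => (x.1 : ℂ) + x.2 * om) |>.subset ?_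
  rintro b ⟨⟨m, n, rfl⟩, hb⟩
  have h1 : ‖(m : ℂ) + n * om‖ ≤ ‖ζ‖ + r := by
    calc ‖(m : ℂ) + n * om‖ = ‖ζ - (ζ - (m + n * om))‖ := by congr 1; ring
      _ ≤ ‖ζ‖ + ‖ζ - (m + n * om)‖ := norm_sub_le _ _
      _ ≤ ‖ζ‖ + r := by linarith
  have h0 := norm_nonneg ((m : ℂ) + n * om)
  have h2 : ‖(m : ℂ) + n * om‖ ^ 2 ≤ (‖ζ‖ + r) ^ 2 := by nlinarith
  rw [eis_norm] at h2
  have h3 : ((m ^ 2 - m * n + n ^ 2 : ℤ) : ℝ) = (m : ℝ) ^ 2 - m * n + (n : ℝ) ^ 2 := by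
    push_cast
    ring
  rw [h3] at h2
  have hN0 : 0 ≤ ‖ζ‖ + r := by linarith
  have hm : |(m : ℝ)| ≤ N := by
    apply abs_le_of_sq_le_sq _ (Nat.cast_nonneg N)
    nlinarith [sq_nonneg ((n : ℝ) - m / 2)]
  have hn : |(n : ℝ)| ≤ N := by
    apply abs_le_of_sq_le_sq _ (Nat.cast_nonneg N)
    nlinarith [sq_nonneg ((m : ℝ) - n / 2)]
  rw [abs_le] at hm hn
  refine ⟨(m, n), ⟨⟨?_, ?_⟩, ⟨?_, ?_⟩⟩, rfl⟩
  · exact_mod_cast hm.1
  · exact_mod_cast hm.2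
  · exact_mod_cast hn.1
  · exact_mod_cast hn.2

/-- covering radius of the Eisenstein integers -/
theorem eis_cover (ζ : ℂ) : ∃ b ∈ Eis, ‖ζ - b‖ ^ 2 ≤ 1 / 3 := by
  have h3 : Real.sqrt 3 ≠ 0 := by
    intro h
    have := sq3
    rw [h] at this
    norm_num at this
  set y : ℝ := 2 * ζ.im / Real.sqrt 3 with hy
  set x : ℝ := ζ.re + y / 2 with hx
  have hyim : ζ.im = y * (Real.sqrt 3 / 2) := by
    rw [hy]
    field_simp
  have hdist : ∀ m n : ℤ, ‖ζ - ((m : ℂ) + n * om)‖ ^ 2 =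
      (x - m) ^ 2 - (x - m) * (y - n) + (y - n) ^ 2 := by
    intro m n
    rw [Complex.sq_norm, Complex.normSq_apply, Complex.sub_re, Complex.sub_im, eis_re, eis_im,
      hyim]
    have : ζ.re = x - y / 2 := by rw [hx]; ring
    rw [this]
    linear_combination ((y - n) ^ 2 / 4) * sq3
  set u : ℝ := Int.fract x with hu
  set v : ℝ := Int.fract y with hv
  have hu0 : 0 ≤ u := Int.fract_nonneg x
  have hu1 : u < 1 := Int.fract_lt_one x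
  have hv0 : 0 ≤ v := Int.fract_nonneg y
  have hv1 : v < 1 := Int.fract_lt_one y
  have hxu : x - ⌊x⌋ = u := Int.self_sub_floor x
  have hyv : y - ⌊y⌋ = v := Int.self_sub_floor y
  by_contra hne
  push Not at hne
  have k00 := hne _ ⟨⌊x⌋, ⌊y⌋, rfl⟩
  have k11 := hne _ ⟨⌊x⌋ + 1, ⌊y⌋ + 1, rfl⟩
  have k10 := hne _ ⟨⌊x⌋ + 1, ⌊y⌋, rfl⟩
  have k01 := hne _ ⟨⌊x⌋, ⌊y⌋ + 1, rfl⟩
  rw [hdist] at k00 k11 k10 k01
  push_cast at k11 k10 k01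
  have e1 : x - (⌊x⌋ + 1) = u - 1 := by rw [← hxu]; ring
  have e2 : y - (⌊y⌋ + 1) = v - 1 := by rw [← hyv]; ring
  rw [e1, e2] at k11
  rw [e1, hyv] at k10
  rw [e2, hxu] at k01
  rw [hxu, hyv] at k00
  rcases le_total v u with h | h
  · nlinarith [mul_le_mul_of_nonneg_left k00.le (show 0 ≤ 1 - u by linarith),
      mul_le_mul_of_nonneg_left k10.le (show 0 ≤ u - v by linarith),
      mul_le_mul_of_nonneg_left k11.le hv0, sq_nonneg (1 - u - (u - v)), sq_nonneg (u - v - v),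
      sq_nonneg (1 - u - v)]
  · nlinarith [mul_le_mul_of_nonneg_left k00.le (show 0 ≤ 1 - v by linarith),
      mul_le_mul_of_nonneg_left k01.le (show 0 ≤ v - u by linarith),
      mul_le_mul_of_nonneg_left k11.le hu0, sq_nonneg (1 - v - (v - u)), sq_nonneg (v - u - u),
      sq_nonneg (1 - v - u)]

/-- the results of the module ALG used here -/
structure AlgH : Prop where
  act_mem : ∀ {g : V3 ≃ₗ[ℂ] V3}, g ∈ UG → ∀ {p : Pt}, p ∈ SD → act g p ∈ SD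
  act_mul : ∀ (g : V3 ≃ₗ[ℂ] V3) {h : V3 ≃ₗ[ℂ] V3}, h ∈ UG → ∀ {p : Pt}, p ∈ SD →
    act (g * h) p = act g (act h p)
  act_one : ∀ p : Pt, act (1 : V3 ≃ₗ[ℂ] V3) p = p
  act_T : ∀ (a b : ℂ) (p : Pt), act (T a b) p = (p.1 - conj b * p.2 + a, p.2 + b)
  T_mem_Gam : ∀ {a b : ℂ}, a ∈ Eis → b ∈ Eis → 2 * a.re + ‖b‖ ^ 2 = 0 → T a b ∈ Gam
  hgt_T : ∀ {a b : ℂ}, 2 * a.re + ‖b‖ ^ 2 = 0 → ∀ p : Pt, hgt (act (T a b) p) = hgt p
  uval_act : ∀ {g : V3 ≃ₗ[ℂ] V3}, g ∈ UG → ∀ (w : V3) {p : Pt}, p ∈ SD →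
    uval w (act g p) = uval (g⁻¹ w) p
  uval_w0 : ∀ p : Pt, uval w0 p = 1 / hgt p

/-- the statement `local_finite` of the module DISC -/
def LocFin : Prop := ∀ {p : Pt} (_ : p ∈ SD) (C a : ℝ) (_ : 0 < a),
    ∃ U ∈ 𝓝 p, U ⊆ SD ∧ {γ : Gam | ∃ q ∈ U, act γ q ∈ Sieg C a}.Finite

/-- nearest Eisenstein integer -/
theorem eis_nearest (ζ : ℂ) : ∃ b ∈ Eis, (∀ b' ∈ Eis, ‖ζ - b‖ ≤ ‖ζ - b'‖) := by
  have hf := eis_finite ζ ‖ζ‖
  have hn : {b : ℂ | b ∈ Eis ∧ ‖ζ - b‖ ≤ ‖ζ‖}.Nonempty := ⟨0, Eis.zero_mem, by simp⟩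
  obtain ⟨b, ⟨hb, hb1⟩, hmin⟩ := Set.exists_min_image _ (fun b => ‖ζ - b‖) hf hn
  refine ⟨b, hb, fun b' hb' => ?_⟩
  rcases le_or_gt (‖ζ - b'‖) ‖ζ‖ with h | h
  · exact hmin b' ⟨hb', h⟩
  · exact hb1.trans h.le

/-- reduction by Heisenberg translations -/
theorem exists_translate (hA : AlgH) {q : Pt} (hq : q ∈ SD) : ∃ t ∈ Gam, hgt (act t q) = hgt q ∧
    (∀ b ∈ Eis, ‖(act t q).2‖ ≤ ‖(act t q).2 - b‖) ∧ ‖(act t q).2‖ ^ 2 ≤ 1 / 3 ∧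
    |(act t q).1.im| ≤ Real.sqrt 3 / 2 := by
  obtain ⟨b, hb, hmin⟩ := eis_nearest q.2
  obtain ⟨b1, hb1, hb1'⟩ := eis_cover q.2
  have hb' : -b ∈ Eis := Eis.neg_mem hb
  obtain ⟨m, n, hmn⟩ := hb'
  set N : ℤ := m ^ 2 - m * n + n ^ 2 with hN
  have hre : 2 * ((N : ℂ) * om).re + ‖-b‖ ^ 2 = 0 := by
    rw [hmn, eis_norm, ← hN]
    have : ((N : ℂ) * om).re = -(N : ℝ) / 2 := by
      simp [om_re, om_im, Complex.mul_re]
      ring
    rw [this]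
    ring
  set q1 : Pt := act (T ((N : ℂ) * om) (-b)) q with hq1
  set k : ℤ := -round (q1.1.im / Real.sqrt 3) with hk
  have hre2 : 2 * (th * k).re + ‖(0 : ℂ)‖ ^ 2 = 0 := by
    simp [th_re, Complex.mul_re]
  have hm1 : T ((N : ℂ) * om) (-b) ∈ Gam := hA.T_mem_Gam (om_mul N) (Eis.neg_mem hb) hre
  have hm2 : T (th * k) 0 ∈ Gam := hA.T_mem_Gam (th_mul k) Eis.zero_mem hre2
  have e : act (T (th * k) 0 * T ((N : ℂ) * om) (-b)) q =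
      (q1.1 - conj (0 : ℂ) * q1.2 + th * k, q1.2 + 0) := by
    rw [hA.act_mul _ hm1.1 hq, ← hq1, hA.act_T]
  have e2 : q1.2 = q.2 - b := by
    rw [hq1, hA.act_T]
    ring
  have hmin' : ∀ b' ∈ Eis, ‖q1.2 + 0‖ ≤ ‖q1.2 + 0 - b'‖ := by
    intro b' hb'
    have h1 := hmin (b + b') (Eis.add_mem hb hb')
    rw [e2, add_zero]
    calc ‖q.2 - b‖ ≤ ‖q.2 - (b + b')‖ := h1
      _ = ‖q.2 - b - b'‖ := by rw [sub_sub]
  refine ⟨T (th * k) 0 * T ((N : ℂ) * om) (-b), Gam.mul_mem hm2 hm1, ?_, ?_, ?_, ?_⟩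
  · rw [hA.act_mul _ hm1.1 hq, hA.hgt_T hre2, hA.hgt_T hre]
  · rw [e]
    exact hmin'
  · rw [e]
    change ‖q1.2 + 0‖ ^ 2 ≤ 1 / 3
    have h1 := hmin' (b1 - b) (Eis.sub_mem hb1 hb)
    have h2 : ‖q1.2 + 0 - (b1 - b)‖ = ‖q.2 - b1‖ := by
      rw [e2]
      congr 1
      ring
    rw [h2] at h1
    have := norm_nonneg (q1.2 + 0)
    nlinarith
  · rw [e]
    change |(q1.1 - conj (0 : ℂ) * q1.2 + th * k).im| ≤ Real.sqrt 3 / 2
    have h3 : 0 < Real.sqrt 3 := Real.sqrt_pos.2 (by norm_num)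
    have h1 := abs_sub_round (q1.1.im / Real.sqrt 3)
    have h2 : (q1.1 - conj (0 : ℂ) * q1.2 + th * k).im =
        Real.sqrt 3 * (q1.1.im / Real.sqrt 3 - round (q1.1.im / Real.sqrt 3)) := by
      have h5 : (q1.1 - conj (0 : ℂ) * q1.2 + th * k).im = q1.1.im + Real.sqrt 3 * k := by
        simp [th_re, th_im, Complex.mul_im]
      rw [h5, hk]
      push_cast
      field_simp
      ring
    rw [h2, abs_mul, abs_of_pos h3]
    nlinarith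

/-- a point of maximal height in the orbit, reduced by Heisenberg translations -/
theorem exists_best (hA : AlgH) (hLF : LocFin) {p : Pt} (hp : p ∈ SD) :
    ∃ γ ∈ Gam, (∀ δ ∈ Gam, hgt (act δ p) ≤ hgt (act γ p)) ∧
      (∀ b ∈ Eis, ‖(act γ p).2‖ ≤ ‖(act γ p).2 - b‖) ∧ ‖(act γ p).2‖ ^ 2 ≤ 1 / 3 ∧
      |(act γ p).1.im| ≤ Real.sqrt 3 / 2 := by
  have hr : 0 < hgt p := hp
  have htr : ∀ δ ∈ Gam, ∃ δ' ∈ Gam, hgt (act δ' p) = hgt (act δ p) ∧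
      (∀ b ∈ Eis, ‖(act δ' p).2‖ ≤ ‖(act δ' p).2 - b‖) ∧ ‖(act δ' p).2‖ ^ 2 ≤ 1 / 3 ∧
      |(act δ' p).1.im| ≤ Real.sqrt 3 / 2 := by
    intro δ hδ
    obtain ⟨t, ht, h1, h2, h3, h4⟩ := exists_translate hA (hA.act_mem hδ.1 hp)
    refine ⟨t * δ, Gam.mul_mem ht hδ, ?_⟩
    rw [hA.act_mul t hδ.1 hp]
    exact ⟨h1, h2, h3, h4⟩
  have hsieg : ∀ q : Pt, ‖q.2‖ ^ 2 ≤ 1 / 3 → |q.1.im| ≤ Real.sqrt 3 / 2 → hgt p ≤ hgt q →
      q ∈ Sieg 1 (hgt p) := by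
    intro q h1 h2 h3
    refine ⟨?_, ?_, h3⟩
    · nlinarith [norm_nonneg q.2]
    · linarith [sq3_le]
  set S : Set Gam := {γ : Gam | act γ p ∈ Sieg 1 (hgt p)} with hS
  have hSf : S.Finite := by
    obtain ⟨U, hU, _, hf⟩ := hLF hp 1 (hgt p) hr
    exact hf.subset (fun δ h => ⟨p, mem_of_mem_nhds hU, h⟩)
  have hSn : S.Nonempty := by
    obtain ⟨δ', hδ', h1, _, h3, h4⟩ := htr 1 Gam.one_mem
    refine ⟨⟨δ', hδ'⟩, hsieg _ h3 h4 ?_⟩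
    change hgt p ≤ hgt (act δ' p)
    rw [h1, hA.act_one]
  obtain ⟨γ1, hγ1S, hγ1⟩ := Set.exists_max_image S (fun γ : Gam => hgt (act γ p)) hSf hSn
  have hmax : ∀ δ ∈ Gam, hgt (act δ p) ≤ hgt (act γ1 p) := by
    intro δ hδ
    rcases lt_or_ge (hgt (act δ p)) (hgt p) with h | h
    · exact h.le.trans hγ1S.2.2
    · obtain ⟨δ', hδ', h1, _, h3, h4⟩ := htr δ hδ
      have := hγ1 ⟨δ', hδ'⟩ (hsieg _ h3 h4 (by
        change hgt p ≤ hgt (act δ' p); rw [h1]; exact h))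
      change hgt (act δ' p) ≤ hgt (act γ1 p) at this
      rwa [h1] at this
  obtain ⟨γ2, hγ2, h1, h2, h3, h4⟩ := htr γ1 γ1.2
  refine ⟨γ2, hγ2, fun δ hδ => ?_, h2, h3, h4⟩
  rw [h1]
  exact hmax δ hδ

/-- exchange of the first and the third coordinate -/
noncomputable def sw : V3 ≃ₗ[ℂ] V3 where
  toFun x := (x.2.2, x.2.1, x.1)
  map_add' _ _ := rfl
  map_smul' _ _ := rfl
  invFun x := (x.2.2, x.2.1, x.1)
  left_inv _ := rfl
  right_inv _ := rfl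

theorem sw_apply (x : V3) : sw x = (x.2.2, x.2.1, x.1) := rfl

theorem sw_mem : sw ∈ Gam := by
  refine ⟨fun x y => ?_, fun x => ?_⟩
  · rw [sw_apply, sw_apply]
    unfold herm
    dsimp only
    ring
  · rw [sw_apply]
    constructor
    · rintro ⟨h1, h2, h3⟩
      exact ⟨h3, h2, h1⟩
    · rintro ⟨h1, h2, h3⟩
      exact ⟨h3, h2, h1⟩

theorem cusp_mem (hA : AlgH) {a b : ℂ} (ha : a ∈ Eis) (hb : b ∈ Eis)
    (h : 2 * a.re + ‖b‖ ^ 2 = 0) : ((a, b, 1) : V3) ∈ Orb := by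
  refine ⟨T a b * sw, Gam.mul_mem (hA.T_mem_Gam ha hb h) sw_mem, ?_⟩
  rw [LinearEquiv.mul_apply, sw_apply]
  change ((a, b, 1) : V3) = ((0 : ℂ) - conj b * 0 + a * 1, (0 : ℂ) + b * 1, (1 : ℂ))
  refine Prod.ext ?_ (Prod.ext ?_ rfl)
  · simp
  · simp

/-- the value at a cusp with third coordinate `1` -/
theorem four_herm (q : Pt) (a b : ℂ) (h : 2 * a.re + ‖b‖ ^ 2 = 0) :
    4 * ‖herm (vec q) (a, b, 1)‖ ^ 2 =
      (hgt q + ‖q.2‖ ^ 2 + ‖b‖ ^ 2) ^ 2 + (2 * q.1.im - 2 * a.im) ^ 2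
      + 4 * (‖q.2‖ ^ 2 * ‖b‖ ^ 2)
      - 4 * ((hgt q + ‖q.2‖ ^ 2 + ‖b‖ ^ 2) * (q.2.re * b.re + q.2.im * b.im)
        - (2 * q.1.im - 2 * a.im) * (q.2.im * b.re - q.2.re * b.im)) := by
  have h1 : herm (vec q) (a, b, 1) = q.1 + q.2 * conj b + conj a := by
    unfold herm vec
    simp
  have h2 : a.re = -‖b‖ ^ 2 / 2 := by linarith
  rw [h1, Complex.sq_norm, Complex.normSq_apply]
  have e1 : (q.1 + q.2 * conj b + conj a).re = q.1.re + (q.2.re * b.re + q.2.im * b.im) + a.re := by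
    simp [Complex.mul_re]
  have e2 : (q.1 + q.2 * conj b + conj a).im = q.1.im + (q.2.im * b.re - q.2.re * b.im) - a.im := by
    simp [Complex.mul_im]
    ring
  have e3 : q.1.re = -(hgt q + ‖q.2‖ ^ 2) / 2 := by
    unfold hgt
    ring
  have e4 : ‖q.2‖ ^ 2 = q.2.re * q.2.re + q.2.im * q.2.im := by
    rw [Complex.sq_norm, Complex.normSq_apply]
  have e5 : ‖b‖ ^ 2 = b.re * b.re + b.im * b.im := by
    rw [Complex.sq_norm, Complex.normSq_apply]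
  rw [e1, e2, e3, h2]
  have e6 : ‖q.2‖ ^ 2 * ‖b‖ ^ 2 = (q.2.re * b.re + q.2.im * b.im) ^ 2 +
      (q.2.im * b.re - q.2.re * b.im) ^ 2 := by
    rw [e4, e5]
    ring
  rw [e6]
  ring

/-- one of the six units is within 30 degrees -/
theorem units_key {X1 X2 S K : ℝ} (hS : S * S = 3) (h1 : X1 ^ 2 ≤ K ^ 2)
    (h2 : ((X1 - S * X2) / 2) ^ 2 ≤ K ^ 2) (h3 : ((X1 + S * X2) / 2) ^ 2 ≤ K ^ 2) :
    3 / 4 * (X1 ^ 2 + X2 ^ 2) ≤ K ^ 2 := by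
  by_contra hc
  push Not at hc
  set R : ℝ := X1 ^ 2 + X2 ^ 2 with hR
  have k1 : 0 < 3 * R - 4 * X1 ^ 2 := by linarith
  have k2 : 0 < 3 * R - 4 * ((X1 - S * X2) / 2) ^ 2 := by linarith
  have k3 : 0 < 3 * R - 4 * ((X1 + S * X2) / 2) ^ 2 := by linarith
  have k4 := mul_pos (mul_pos k1 k2) k3
  have e1 : 3 * R - 4 * X1 ^ 2 = 3 * X2 ^ 2 - X1 ^ 2 := by rw [hR]; ring
  have e2 : 3 * R - 4 * ((X1 - S * X2) / 2) ^ 2 = 2 * X1 * (X1 + S * X2) := by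
    rw [hR]
    linear_combination (-X2 ^ 2) * hS
  have e3 : 3 * R - 4 * ((X1 + S * X2) / 2) ^ 2 = 2 * X1 * (X1 - S * X2) := by
    rw [hR]
    linear_combination (-X2 ^ 2) * hS
  rw [e1, e2, e3] at k4
  have e4 : (3 * X2 ^ 2 - X1 ^ 2) * (2 * X1 * (X1 + S * X2)) * (2 * X1 * (X1 - S * X2)) =
      -(4 * (X1 * (X1 ^ 2 - 3 * X2 ^ 2)) ^ 2) := by
    linear_combination (-4 * X1 ^ 2 * X2 ^ 2 * (3 * X2 ^ 2 - X1 ^ 2)) * hS
  rw [e4] at k4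
  have := sq_nonneg (X1 * (X1 ^ 2 - 3 * X2 ^ 2))
  linarith

/-- the numerical contradiction -/
theorem numeric {u d y S B2 K : ℝ} (hS : S * S = 3) (hS0 : 0 ≤ S) (hu0 : 0 < u) (hu : u < 1)
    (hd0 : 0 ≤ d) (hd : d ≤ 1 / 3) (hy0 : 0 ≤ y) (hy : y ≤ S)
    (h0 : 4 ≤ (u + d) ^ 2 + (S - y) ^ 2) (hB : B2 = (u + d + 1) ^ 2 + y ^ 2)
    (hK : K = (B2 + 4 * d - 4) / 4) (hK0 : 0 ≤ K) (h1 : 3 / 4 * (B2 * d) ≤ K ^ 2) : False := by
  have hyS : y * y ≤ S * y := mul_le_mul_of_nonneg_right hy hy0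
  have hSy0 : 0 ≤ S * y := mul_nonneg hS0 hy0
  have hexp : (S - y) ^ 2 = 3 - 2 * (S * y) + y * y := by linear_combination hS
  have hSy : S * y ≤ (u + d) ^ 2 - 1 := by linarith
  have hud0 : 0 ≤ u + d := by linarith
  have hud1 : (u + d) ^ 2 ≤ (1 + d) ^ 2 := pow_le_pow_left₀ hud0 (by linarith) 2
  have hSy2 : S * y ≤ 2 * d + d ^ 2 := by linarith [hud1]
  have hud : 1 ≤ u + d := by
    by_contra hc
    push Not at hc
    have : (u + d) ^ 2 < 1 := by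
      have := mul_lt_mul'' hc hc hud0 hud0
      linarith [sq (u + d)]
    linarith
  have hd1 : 0 < d := by linarith
  have hdd : d ^ 2 ≤ 1 / 3 * d := by
    have := mul_le_mul_of_nonneg_right hd hd0
    linarith [sq d]
  have hy2 : y ^ 2 ≤ 49 / 27 * d ^ 2 := by
    have e1 : (S * y) ^ 2 = 3 * y ^ 2 := by linear_combination (y ^ 2) * hS
    have e2 : S * y ≤ 7 / 3 * d := by linarith
    have e3 : (S * y) ^ 2 ≤ (7 / 3 * d) ^ 2 := pow_le_pow_left₀ hSy0 e2 2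
    linarith [show (7 / 3 * d) ^ 2 = 49 / 9 * d ^ 2 by ring]
  have hP0 : 0 ≤ u + d + 1 := by linarith
  have hB4 : 4 ≤ B2 := by
    have e1 : (2 : ℝ) ^ 2 ≤ (u + d + 1) ^ 2 := pow_le_pow_left₀ (by norm_num) (by linarith) 2
    have e2 := sq_nonneg y
    linarith
  have hB1 : B2 ≤ (2 + d) ^ 2 + 49 / 27 * d ^ 2 := by
    have e1 : (u + d + 1) ^ 2 ≤ (2 + d) ^ 2 := pow_le_pow_left₀ hP0 (by linarith) 2
    linarith
  have hK1 : K ≤ 9 / 4 * d := by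
    have e1 : (2 + d) ^ 2 + 49 / 27 * d ^ 2 = 4 + 4 * d + 76 / 27 * d ^ 2 := by ring
    linarith
  have hK2 : K ^ 2 ≤ (9 / 4 * d) ^ 2 := pow_le_pow_left₀ hK0 hK1 2
  have h2 : 3 * d ≤ 3 / 4 * (B2 * d) := by
    have := mul_le_mul_of_nonneg_right hB4 hd0
    linarith
  have h3 : (9 / 4 * d) ^ 2 = 81 / 16 * d ^ 2 := by ring
  linarith

theorem one_le_hgt (hA : AlgH) {q : Pt} (hq : q ∈ SD)
    (hmin : ∀ w ∈ Orb, 1 / hgt q ≤ uval w q) (hd : ‖q.2‖ ^ 2 ≤ 1 / 3)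
    (hv : |q.1.im| ≤ Real.sqrt 3 / 2) : 1 ≤ hgt q := by
  have hu0 : 0 < hgt q := hq
  by_contra hu
  push Not at hu
  have hcon : ∀ a ∈ Eis, ∀ b ∈ Eis, 2 * a.re + ‖b‖ ^ 2 = 0 →
      4 ≤ 4 * ‖herm (vec q) (a, b, 1)‖ ^ 2 := by
    intro a ha b hb hab
    have h := hmin _ (cusp_mem hA ha hb hab)
    unfold uval at h
    have h2 := (div_le_div_iff_of_pos_right hu0).1 h
    linarith
  have hS := sq3
  have hS0 := sq3_nonneg
  set S : ℝ := Real.sqrt 3 with hSdef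
  set u : ℝ := hgt q with hudef
  set d : ℝ := ‖q.2‖ ^ 2 with hddef
  have hd0 : 0 ≤ d := sq_nonneg _
  have hdre : d = q.2.re * q.2.re + q.2.im * q.2.im := by
    rw [hddef, Complex.sq_norm, Complex.normSq_apply]
  -- the cusp `0`
  have h0 := hcon 0 Eis.zero_mem 0 Eis.zero_mem (by simp)
  rw [four_herm q 0 0 (by simp)] at h0
  have h0' : 4 ≤ (u + d) ^ 2 + (2 * q.1.im) ^ 2 := by
    have e : (u + d + ‖(0 : ℂ)‖ ^ 2) ^ 2 + (2 * q.1.im - 2 * (0 : ℂ).im) ^ 2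
      + 4 * (d * ‖(0 : ℂ)‖ ^ 2)
      - 4 * ((u + d + ‖(0 : ℂ)‖ ^ 2) * (q.2.re * (0 : ℂ).re + q.2.im * (0 : ℂ).im)
        - (2 * q.1.im - 2 * (0 : ℂ).im) * (q.2.im * (0 : ℂ).re - q.2.re * (0 : ℂ).im)) =
        (u + d) ^ 2 + (2 * q.1.im) ^ 2 := by
      simp
    rw [e] at h0
    exact h0
  -- the sign
  have hsign : ∃ a ∈ Eis, 2 * a.re + 1 = 0 ∧ (2 * q.1.im - 2 * a.im) ^ 2 =
      (S - |2 * q.1.im|) ^ 2 := by
    rcases le_total 0 q.1.im with h | h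
    · refine ⟨om, om_mem, ?_, ?_⟩
      · rw [om_re]; norm_num
      · rw [om_im, abs_of_nonneg (by linarith)]
        ring
    · refine ⟨-1 - om, ⟨-1, -1, by push_cast; ring⟩, ?_, ?_⟩
      · rw [Complex.sub_re, om_re]; norm_num
      · rw [Complex.sub_im, om_im, abs_of_nonpos (by linarith)]
        simp
        ring
  obtain ⟨a, ha, hare, haim⟩ := hsign
  set y : ℝ := S - |2 * q.1.im| with hy
  have hv2 : |2 * q.1.im| ≤ S := by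
    rw [abs_mul, abs_two]
    linarith
  have hy0 : 0 ≤ y := by linarith
  have hyS : y ≤ S := by
    have := abs_nonneg (2 * q.1.im)
    linarith
  have h00 : 4 ≤ (u + d) ^ 2 + (S - y) ^ 2 := by
    have e : (S - y) ^ 2 = (2 * q.1.im) ^ 2 := by
      rw [hy, sub_sub_cancel, sq_abs]
    rw [e]
    exact h0'
  set Q : ℝ := 2 * q.1.im - 2 * a.im with hQ
  set P : ℝ := u + d + 1 with hP
  set X1 : ℝ := P * q.2.re - Q * q.2.im with hX1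
  set X2 : ℝ := P * q.2.im + Q * q.2.re with hX2
  set B2 : ℝ := P ^ 2 + y ^ 2 with hB2
  set K : ℝ := (B2 + 4 * d - 4) / 4 with hK
  have hX : X1 ^ 2 + X2 ^ 2 = B2 * d := by
    have : X1 ^ 2 + X2 ^ 2 = (P ^ 2 + Q ^ 2) * d := by
      rw [hX1, hX2, hdre]
      ring
    rw [this, haim]
  have hunit : ∀ b ∈ Eis, ‖b‖ ^ 2 = 1 → X1 * b.re + X2 * b.im ≤ K := by
    intro b hb hb1
    have h := hcon a ha b hb (by rw [hb1]; exact hare)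
    rw [four_herm q a b (by rw [hb1]; exact hare), hb1] at h
    have e : (u + d + 1) ^ 2 + (2 * q.1.im - 2 * a.im) ^ 2 + 4 * (d * 1)
      - 4 * ((u + d + 1) * (q.2.re * b.re + q.2.im * b.im)
        - (2 * q.1.im - 2 * a.im) * (q.2.im * b.re - q.2.re * b.im)) =
        B2 + 4 * d - 4 * (X1 * b.re + X2 * b.im) := by
      rw [hX1, hX2, hB2, ← haim]
      ring
    rw [e] at h
    rw [hK]
    linarith
  have n1 : ‖(1 : ℂ)‖ ^ 2 = 1 := by simp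
  have nom : ‖om‖ ^ 2 = 1 := by
    rw [Complex.sq_norm, Complex.normSq_apply, om_re, om_im]
    linear_combination (1 / 4) * sq3
  have nom2 : ‖1 + om‖ ^ 2 = 1 := by
    rw [Complex.sq_norm, Complex.normSq_apply, Complex.add_re, Complex.add_im, om_re, om_im]
    simp
    linear_combination (1 / 4) * sq3
  have m1 : (1 : ℂ) ∈ Eis := ⟨1, 0, by simp⟩
  have m2 : (1 + om : ℂ) ∈ Eis := ⟨1, 1, by simp⟩
  have u1 := hunit 1 m1 n1
  have u2 := hunit (-1) (Eis.neg_mem m1) (by rw [norm_neg]; exact n1)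
  have u3 := hunit om om_mem nom
  have u4 := hunit (-om) (Eis.neg_mem om_mem) (by rw [norm_neg]; exact nom)
  have u5 := hunit (1 + om) m2 nom2
  have u6 := hunit (-(1 + om)) (Eis.neg_mem m2) (by rw [norm_neg]; exact nom2)
  rw [Complex.neg_re, Complex.neg_im] at u2 u4 u6
  rw [Complex.one_re, Complex.one_im] at u1 u2
  rw [om_re, om_im] at u3 u4
  rw [Complex.add_re, Complex.add_im, Complex.one_re, Complex.one_im, om_re, om_im] at u5 u6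
  have hK0 : 0 ≤ K := by linarith
  have a1 : X1 ^ 2 ≤ K ^ 2 := sq_le_sq' (by linarith) (by linarith)
  have a2 : ((X1 - S * X2) / 2) ^ 2 ≤ K ^ 2 := sq_le_sq' (by linarith) (by linarith)
  have a3 : ((X1 + S * X2) / 2) ^ 2 ≤ K ^ 2 := sq_le_sq' (by linarith) (by linarith)
  have hkey := units_key hS a1 a2 a3
  rw [hX] at hkey
  exact numeric hS hS0 hu0 hu hd0 hd hy0 hyS h00 rfl rfl hK0 hkey

/-- module RED -/
theorem reduce_aux (hA : AlgH) (hLF : LocFin) {p : Pt} (hp : p ∈ SD) : ∃ γ ∈ Gam,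
    (∀ w ∈ Orb, 1 / hgt (act γ p) ≤ uval w (act γ p)) ∧
    (∀ b ∈ Eis, ‖(act γ p).2‖ ≤ ‖(act γ p).2 - b‖) ∧ ‖(act γ p).2‖ ^ 2 ≤ 1 / 3 ∧
    |(act γ p).1.im| ≤ Real.sqrt 3 / 2 ∧ 1 ≤ hgt (act γ p) := by
  obtain ⟨γ, hγ, hmax, h2, h3, h4⟩ := exists_best hA hLF hp
  have hq : act γ p ∈ SD := hA.act_mem hγ.1 hp
  have hmin : ∀ w ∈ Orb, 1 / hgt (act γ p) ≤ uval w (act γ p) := by
    rintro w ⟨δ, hδ, rfl⟩
    have hδ' : δ⁻¹ ∈ Gam := Gam.inv_mem hδ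
    have h1 := hA.uval_act hδ'.1 w0 hq
    rw [inv_inv] at h1
    rw [← h1, hA.uval_w0, ← hA.act_mul _ hγ.1 hp]
    have h2 := hmax (δ⁻¹ * γ) (Gam.mul_mem hδ' hγ)
    have h3 : 0 < hgt (act (δ⁻¹ * γ) p) := hA.act_mem (Gam.mul_mem hδ' hγ).1 hp
    exact one_div_le_one_div_of_le h3 h2
  exact ⟨γ, hγ, hmin, h2, h3, h4, one_le_hgt hA hq hmin h3 h4⟩

theorem covers_P_aux (hA : AlgH) (hLF : LocFin) : Covers 1 1 := by
  intro p hp
  obtain ⟨γ, hγ, _, _, h3, h4, h5⟩ := reduce_aux hA hLF hp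
  refine ⟨γ, hγ, ?_, ?_, h5⟩
  · nlinarith [norm_nonneg (act γ p).2]
  · linarith [sq3_le]

end Pool.Agent.Helper86.Pic
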