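import Pool.Agent.Helper10.Pic.Lib

set_option autoImplicit false

/-!
# Module ALG : algebra of the action on the Siegel domain
-/

namespace Pool.Agent.Helper86.Pic

open Pool.Agent.Helper10.Pic
open MeasureTheory Topology
open scoped ComplexConjugate

theorem herm_vec (p : Pt) : herm (vec p) (vec p) = -(hgt p : ℂ) := by
  apply Complex.ext
  · simp only [herm, vec, hgt, Complex.sq_norm, Complex.normSq_apply]
    simp
    ring
  · have h1 : (-(hgt p : ℂ)).im = 0 := by rw [Complex.neg_im, Complex.ofReal_im, neg_zero]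
    rw [h1]
    simp only [herm, vec]
    simp
    ring

theorem herm_smul_left (c : ℂ) (x y : V3) : herm (c • x) y = c * herm x y := by
  simp only [herm, Prod.smul_fst, Prod.smul_snd, smul_eq_mul]
  ring

theorem herm_smul_right (c : ℂ) (x y : V3) : herm x (c • y) = conj c * herm x y := by
  simp only [herm, Prod.smul_fst, Prod.smul_snd, smul_eq_mul, map_mul]
  ring

/-- the third coordinate of `g (vec p)` does not vanish -/
theorem x3_ne {g : V3 ≃ₗ[ℂ] V3} (hg : g ∈ UG) {p : Pt} (hp : p ∈ SD) :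
    (g (vec p)).2.2 ≠ 0 := by
  intro h
  have h1 := hg (vec p) (vec p)
  rw [herm_vec] at h1
  have h2 : (herm (g (vec p)) (g (vec p))).re = ‖(g (vec p)).2.1‖ ^ 2 := by
    simp only [herm, h, Complex.sq_norm, Complex.normSq_apply]
    simp
  rw [h1] at h2
  have h3 : 0 < hgt p := hp
  have h4 := sq_nonneg ‖(g (vec p)).2.1‖
  rw [← h2] at h4
  simp at h4
  linarith

theorem vec_act {g : V3 ≃ₗ[ℂ] V3} (hg : g ∈ UG) {p : Pt} (hp : p ∈ SD) :
    g (vec p) = (g (vec p)).2.2 • vec (act g p) := by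
  have h := x3_ne hg hp
  refine Prod.ext ?_ (Prod.ext ?_ ?_)
  · change (g (vec p)).1 = (g (vec p)).2.2 * ((g (vec p)).1 / (g (vec p)).2.2)
    field_simp
  · change (g (vec p)).2.1 = (g (vec p)).2.2 * ((g (vec p)).2.1 / (g (vec p)).2.2)
    field_simp
  · change (g (vec p)).2.2 = (g (vec p)).2.2 * 1
    rw [mul_one]

theorem hgt_act {g : V3 ≃ₗ[ℂ] V3} (hg : g ∈ UG) {p : Pt} (hp : p ∈ SD) :
    hgt (act g p) = hgt p / ‖(g (vec p)).2.2‖ ^ 2 := by
  have h := x3_ne hg hp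
  have h1 := hg (vec p) (vec p)
  rw [herm_vec, vec_act hg hp, herm_smul_left, herm_smul_right, herm_vec] at h1
  have h2 : ‖(g (vec p)).2.2‖ ^ 2 ≠ 0 := pow_ne_zero 2 (norm_ne_zero_iff.2 h)
  rw [eq_div_iff h2]
  have h3 : ((hgt (act g p) * ‖(g (vec p)).2.2‖ ^ 2 : ℝ) : ℂ) = (hgt p : ℂ) := by
    push_cast
    rw [← Complex.mul_conj']
    linear_combination -h1
  exact_mod_cast h3

theorem act_mem {g : V3 ≃ₗ[ℂ] V3} (hg : g ∈ UG) {p : Pt} (hp : p ∈ SD) : act g p ∈ SD := by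
  have h := x3_ne hg hp
  have h2 : 0 < ‖(g (vec p)).2.2‖ ^ 2 := pow_pos (norm_pos_iff.2 h) 2
  have h3 : 0 < hgt p := hp
  change 0 < hgt (act g p)
  rw [hgt_act hg hp]
  positivity

theorem pnt_smul {c : ℂ} (hc : c ≠ 0) (x : V3) : pnt (c • x) = pnt x := by
  refine Prod.ext ?_ ?_
  · change (c * x.1) / (c * x.2.2) = x.1 / x.2.2
    exact mul_div_mul_left _ _ hc
  · change (c * x.2.1) / (c * x.2.2) = x.2.1 / x.2.2
    exact mul_div_mul_left _ _ hc

theorem act_mul (g : V3 ≃ₗ[ℂ] V3) {h : V3 ≃ₗ[ℂ] V3} (hh : h ∈ UG) {p : Pt} (hp : p ∈ SD) :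
    act (g * h) p = act g (act h p) := by
  change pnt (g (h (vec p))) = pnt (g (vec (act h p)))
  rw [vec_act hh hp, map_smul, pnt_smul (x3_ne hh hp)]

theorem act_one (p : Pt) : act (1 : V3 ≃ₗ[ℂ] V3) p = p := by
  refine Prod.ext ?_ ?_
  · change p.1 / 1 = p.1
    exact div_one _
  · change p.2 / 1 = p.2
    exact div_one _

theorem act_T (a b : ℂ) (p : Pt) : act (T a b) p = (p.1 - conj b * p.2 + a, p.2 + b) := by
  refine Prod.ext ?_ ?_
  · change (p.1 - conj b * p.2 + a * 1) / 1 = p.1 - conj b * p.2 + a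
    rw [mul_one, div_one]
  · change (p.2 + b * 1) / 1 = p.2 + b
    rw [mul_one, div_one]

theorem T_apply (a b : ℂ) (x : V3) :
    T a b x = (x.1 - conj b * x.2.1 + a * x.2.2, x.2.1 + b * x.2.2, x.2.2) := rfl

theorem add_conj_of {a b : ℂ} (h : 2 * a.re + ‖b‖ ^ 2 = 0) : a + conj a + b * conj b = 0 := by
  rw [Complex.add_conj, Complex.mul_conj']
  have : ((2 * a.re + ‖b‖ ^ 2 : ℝ) : ℂ) = 0 := by rw [h]; simp
  rw [← this]
  push_cast
  ring

theorem T_mem_UG {a b : ℂ} (h : 2 * a.re + ‖b‖ ^ 2 = 0) : T a b ∈ UG := by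
  intro x y
  rw [T_apply, T_apply]
  unfold herm
  dsimp only
  simp only [map_add, map_sub, map_mul, Complex.conj_conj]
  linear_combination (x.2.2 * conj y.2.2) * add_conj_of h

theorem hgt_T {a b : ℂ} (h : 2 * a.re + ‖b‖ ^ 2 = 0) (p : Pt) : hgt (act (T a b) p) = hgt p := by
  rw [act_T]
  have h2 : 2 * a.re + (b.re * b.re + b.im * b.im) = 0 := by
    rw [Complex.sq_norm, Complex.normSq_apply] at h
    exact h
  simp only [hgt, Complex.sq_norm, Complex.normSq_apply]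
  simp
  linear_combination (-1) * h2

/-- products and inverses of Heisenberg translations -/
theorem T_mul (a b a' b' : ℂ) : T a b * T a' b' = T (a + a' - conj b * b') (b + b') := by
  refine LinearEquiv.ext fun x => Prod.ext ?_ (Prod.ext ?_ ?_)
  · change (T a b (T a' b' x)).1 = (T (a + a' - conj b * b') (b + b') x).1
    rw [T_apply a b, T_apply a' b', T_apply]
    simp only [map_add]
    ring
  · change (T a b (T a' b' x)).2.1 = (T (a + a' - conj b * b') (b + b') x).2.1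
    rw [T_apply a b, T_apply a' b', T_apply]
    ring
  · rfl

theorem T_zero : T 0 0 = 1 := by
  refine LinearEquiv.ext fun x => Prod.ext ?_ (Prod.ext ?_ ?_)
  · change x.1 - conj (0 : ℂ) * x.2.1 + 0 * x.2.2 = x.1
    simp
  · change x.2.1 + 0 * x.2.2 = x.2.1
    simp
  · rfl

theorem T_inv {a b : ℂ} (h : 2 * a.re + ‖b‖ ^ 2 = 0) : T (conj a) (-b) = (T a b)⁻¹ := by
  rw [eq_inv_iff_mul_eq_one, T_mul]
  have h1 := add_conj_of h
  have e1 : conj a + a - conj (-b) * b = 0 := by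
    rw [map_neg]
    linear_combination h1
  have e2 : -b + b = 0 := by ring
  rw [e1, e2, T_zero]

/-! ### Eisenstein integers -/

theorem om_mul_om : om * om = -1 - om := by
  have h3 : Real.sqrt 3 * Real.sqrt 3 = 3 := Real.mul_self_sqrt (by norm_num)
  apply Complex.ext
  · simp [Complex.mul_re, om]
    linear_combination (-1 / 4) * h3
  · simp [Complex.mul_im, om]
    ring

theorem conj_om' : conj om = -1 - om := by
  apply Complex.ext
  · simp [om]
    norm_num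
  · simp

theorem Eis_mul {x y : ℂ} (hx : x ∈ Eis) (hy : y ∈ Eis) : x * y ∈ Eis := by
  obtain ⟨m, n, rfl⟩ := hx
  obtain ⟨m', n', rfl⟩ := hy
  refine ⟨m * m' - n * n', m * n' + n * m' - n * n', ?_⟩
  push_cast
  linear_combination ((n : ℂ) * n') * om_mul_om

theorem Eis_conj {x : ℂ} (hx : x ∈ Eis) : conj x ∈ Eis := by
  obtain ⟨m, n, rfl⟩ := hx
  refine ⟨m - n, -n, ?_⟩
  rw [map_add, map_mul, conj_om']
  simp
  ring

theorem Eis_one : (1 : ℂ) ∈ Eis := ⟨1, 0, by simp⟩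

theorem Eis_th : th ∈ Eis := by
  refine ⟨1, 2, ?_⟩
  apply Complex.ext
  · simp [th, om]
    norm_num
  · simp [th, om]
    ring

theorem T_lat {a b : ℂ} (ha : a ∈ Eis) (hb : b ∈ Eis) {x : V3} (hx : x ∈ lat3) :
    T a b x ∈ lat3 := by
  obtain ⟨h1, h2, h3⟩ := hx
  refine ⟨?_, ?_, h3⟩
  · exact Eis.add_mem (Eis.sub_mem h1 (Eis_mul (Eis_conj hb) h2)) (Eis_mul ha h3)
  · exact Eis.add_mem h2 (Eis_mul hb h3)

theorem T_mem_Gam {a b : ℂ} (ha : a ∈ Eis) (hb : b ∈ Eis) (h : 2 * a.re + ‖b‖ ^ 2 = 0) :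
    T a b ∈ Gam := by
  refine ⟨T_mem_UG h, fun x => ⟨fun hx => ?_, fun hx => T_lat ha hb hx⟩⟩
  have h1 := T_lat (Eis_conj ha) (Eis.neg_mem hb) hx
  rw [T_inv h] at h1
  have h2 : (T a b)⁻¹ (T a b x) = x := (T a b).symm_apply_apply x
  rwa [h2] at h1

theorem InN.mem {a b : ℂ} (h : InN a b) : T a b ∈ Gam := by
  obtain ⟨h1, ⟨c, hc, rfl⟩, h3⟩ := h
  exact T_mem_Gam h1 (Eis_mul Eis_th hc) h3

theorem re_norm {a b : ℂ} (h : a + conj a + b * conj b = 0) : 2 * a.re + ‖b‖ ^ 2 = 0 := by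
  rw [Complex.add_conj, Complex.mul_conj'] at h
  push_cast at h
  have : ((2 * a.re + ‖b‖ ^ 2 : ℝ) : ℂ) = 0 := by
    push_cast
    linear_combination h
  exact_mod_cast this

theorem InN.mul {a b a' b' : ℂ} (h : InN a b) (h' : InN a' b') :
    InN (a + a' - conj b * b') (b + b') := by
  obtain ⟨h1, ⟨c, hc, hbc⟩, h3⟩ := h
  obtain ⟨h1', ⟨c', hc', hbc'⟩, h3'⟩ := h'
  have hb : b ∈ Eis := by rw [hbc]; exact Eis_mul Eis_th hc
  have hb' : b' ∈ Eis := by rw [hbc']; exact Eis_mul Eis_th hc'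
  refine ⟨Eis.sub_mem (Eis.add_mem h1 h1') (Eis_mul (Eis_conj hb) hb'),
    ⟨c + c', Eis.add_mem hc hc', by rw [hbc, hbc']; ring⟩, re_norm ?_⟩
  have e1 := add_conj_of h3
  have e2 := add_conj_of h3'
  simp only [map_add, map_sub, map_mul, Complex.conj_conj]
  linear_combination e1 + e2

theorem InN.inv {a b : ℂ} (h : InN a b) : InN (conj a) (-b) ∧ T (conj a) (-b) = (T a b)⁻¹ := by
  obtain ⟨h1, ⟨c, hc, hbc⟩, h3⟩ := h
  refine ⟨⟨Eis_conj h1, ⟨-c, Eis.neg_mem hc, by rw [hbc]; ring⟩, ?_⟩, T_inv h3⟩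
  rw [Complex.conj_re, norm_neg]
  exact h3

theorem uval_act {g : V3 ≃ₗ[ℂ] V3} (hg : g ∈ UG) (w : V3) {p : Pt} (hp : p ∈ SD) :
    uval w (act g p) = uval (g⁻¹ w) p := by
  have h := x3_ne hg hp
  have h1 : herm (vec p) (g⁻¹ w) = (g (vec p)).2.2 * herm (vec (act g p)) w := by
    rw [← hg (vec p) (g⁻¹ w), ← herm_smul_left, ← vec_act hg hp]
    have key : g (g⁻¹ w) = w := g.apply_symm_apply w
    rw [key]
  unfold uval
  rw [h1, hgt_act hg hp, norm_mul, mul_pow]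
  have h2 : ‖(g (vec p)).2.2‖ ≠ 0 := norm_ne_zero_iff.2 h
  have h3 : hgt p ≠ 0 := (show 0 < hgt p from hp).ne'
  field_simp

theorem uval_w0 (p : Pt) : uval w0 p = 1 / hgt p := by
  have : herm (vec p) w0 = 1 := by
    simp [herm, vec, w0]
  unfold uval
  rw [this]
  simp

theorem uval_pos {w : V3} (hw : w ∈ Orb) {p : Pt} (hp : p ∈ SD) : 0 < uval w p := by
  obtain ⟨γ, hγ, rfl⟩ := hw
  have hγ' : γ⁻¹ ∈ Gam := Gam.inv_mem hγ
  have h1 := uval_act hγ'.1 w0 hp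
  rw [inv_inv] at h1
  rw [← h1, uval_w0]
  have : 0 < hgt (act γ⁻¹ p) := act_mem hγ'.1 hp
  positivity

/-- reverse Cauchy-Schwarz inequality -/
theorem rcs (v : V3) {p : Pt} (hp : p ∈ SD) : -(herm v v).re ≤ ‖herm (vec p) v‖ ^ 2 / hgt p := by
  have hu : 0 < hgt p := hp
  rw [le_div_iff₀ hu]
  have key : hgt p * (herm v v).re + ‖herm (vec p) v‖ ^ 2 =
      hgt p * ‖v.2.1 - p.2 * v.2.2‖ ^ 2 + ‖(hgt p : ℂ) * v.2.2 + conj (herm (vec p) v)‖ ^ 2 := by
    simp only [hgt, herm, vec, Complex.sq_norm, Complex.normSq_apply]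
    simp
    ring
  have h1 : 0 ≤ hgt p * ‖v.2.1 - p.2 * v.2.2‖ ^ 2 := by positivity
  have h2 : 0 ≤ ‖(hgt p : ℂ) * v.2.2 + conj (herm (vec p) v)‖ ^ 2 := sq_nonneg _
  nlinarith

end Pool.Agent.Helper86.Pic
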