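import Pool.Agent.Helper86.Pic.ALG

set_option autoImplicit false

/-!
# Module NULL : almost every point has no cusp vector of height exactly `1`
-/

namespace Pool.Agent.Helper86.Pic

open Pool.Agent.Helper10.Pic
open MeasureTheory Topology
open scoped ComplexConjugate

theorem Eis_countable : (Eis : Set ℂ).Countable := by
  have h : (Eis : Set ℂ) ⊆ Set.range (fun x : ℤ × ℤ => (x.1 : ℂ) + x.2 * om) := by
    rintro x ⟨a, b, rfl⟩
    exact ⟨(a, b), rfl⟩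
  exact (Set.countable_range _).mono h

theorem Orb_countable : Orb.Countable := by
  have h1 : lat3.Countable := by
    have h : lat3 ⊆ (Eis : Set ℂ) ×ˢ ((Eis : Set ℂ) ×ˢ (Eis : Set ℂ)) := by
      rintro x ⟨h1, h2, h3⟩
      exact ⟨h1, h2, h3⟩
    exact (Eis_countable.prod (Eis_countable.prod Eis_countable)).mono h
  refine h1.mono ?_
  rintro w ⟨γ, hγ, rfl⟩
  rw [hγ.2]
  exact ⟨Eis_one, Eis.zero_mem, Eis.zero_mem⟩

/-- a circle of the `ζ`-line -/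
theorem slice_sub (w : V3) (z : ℂ) : ∃ (c : ℂ) (r : ℝ),
    {ζ : ℂ | ‖herm (vec (z, ζ)) w‖ ^ 2 = hgt (z, ζ)} ⊆ Metric.sphere c r := by
  set M : ℝ := 1 + ‖w.2.1‖ ^ 2 with hM
  have hM0 : 0 < M := by positivity
  set k : ℂ := z * conj w.2.2 + conj w.1 with hk
  set c : ℂ := -((1 / M : ℝ) : ℂ) * (w.2.1 * k) with hc
  set R : ℝ := (-‖k‖ ^ 2 - 2 * z.re + ‖w.2.1‖ ^ 2 * ‖k‖ ^ 2 / M) / M with hR
  refine ⟨c, Real.sqrt R, fun ζ hζ => ?_⟩
  have h1 : ‖herm (vec (z, ζ)) w‖ ^ 2 = hgt (z, ζ) := hζ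
  have h2 : herm (vec (z, ζ)) w = k + ζ * conj w.2.1 := by
    rw [hk]
    unfold herm vec
    ring
  rw [h2] at h1
  have h3 : ‖ζ - c‖ ^ 2 = R := by
    have e1 : ‖k + ζ * conj w.2.1‖ ^ 2 = ‖k‖ ^ 2 + ‖ζ‖ ^ 2 * ‖w.2.1‖ ^ 2 +
        2 * (k.re * (ζ * conj w.2.1).re + k.im * (ζ * conj w.2.1).im) := by
      simp only [Complex.sq_norm, Complex.normSq_apply]
      simp
      ring
    have e2 : ‖ζ - c‖ ^ 2 = ‖ζ‖ ^ 2 + ‖w.2.1‖ ^ 2 * ‖k‖ ^ 2 / M ^ 2 +
        2 / M * (k.re * (ζ * conj w.2.1).re + k.im * (ζ * conj w.2.1).im) := by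
      rw [hc]
      simp only [Complex.sq_norm, Complex.normSq_apply]
      simp
      field_simp
      ring
    have e3 : hgt (z, ζ) = -(2 * z.re + ‖ζ‖ ^ 2) := rfl
    rw [e1, e3] at h1
    rw [e2, hR]
    set X : ℝ := k.re * (ζ * conj w.2.1).re + k.im * (ζ * conj w.2.1).im with hX
    have e4 : 2 * X = -(2 * z.re + ‖ζ‖ ^ 2) - ‖k‖ ^ 2 - ‖ζ‖ ^ 2 * ‖w.2.1‖ ^ 2 := by linarith
    have e5 : 2 / M * X = (-(2 * z.re + ‖ζ‖ ^ 2) - ‖k‖ ^ 2 - ‖ζ‖ ^ 2 * ‖w.2.1‖ ^ 2) / M := by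
      rw [← e4]
      ring
    rw [e5]
    field_simp
    rw [hM]
    ring
  rw [mem_sphere_iff_norm, ← h3, Real.sqrt_sq (norm_nonneg _)]

theorem null_set (w : V3) : volume {p : Pt | ‖herm (vec p) w‖ ^ 2 = hgt p} = 0 := by
  have hcont1 : Continuous fun p : Pt => ‖herm (vec p) w‖ ^ 2 := by
    unfold herm vec
    fun_prop
  have hcont2 : Continuous fun p : Pt => hgt p := by
    unfold hgt
    fun_prop
  have hmeas : MeasurableSet {p : Pt | ‖herm (vec p) w‖ ^ 2 = hgt p} :=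
    (isClosed_eq hcont1 hcont2).measurableSet
  rw [Measure.volume_eq_prod, Measure.measure_prod_null hmeas]
  refine Filter.Eventually.of_forall (fun z => ?_)
  obtain ⟨c, r, h⟩ := slice_sub w z
  refine measure_mono_null ?_ (Measure.addHaar_sphere volume c r)
  intro ζ hζ
  exact h hζ

/-- module NULL -/
theorem ae_uval_ne : ∀ᵐ p ∂hyp, ∀ w ∈ Orb, uval w p ≠ 1 := by
  have h1 : ∀ᵐ p : Pt, ∀ w ∈ Orb, uval w p ≠ 1 := by
    rw [ae_ball_iff Orb_countable]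
    intro w _
    rw [ae_iff]
    refine measure_mono_null ?_ (null_set w)
    intro p hp
    have hp' : uval w p = 1 := not_not.1 hp
    unfold uval at hp'
    have h0 : hgt p ≠ 0 := by
      intro h
      rw [h, div_zero] at hp'
      exact zero_ne_one hp'
    rw [div_eq_one_iff_eq h0] at hp'
    exact hp'
  exact (withDensity_absolutelyContinuous _ _).ae_le (ae_restrict_of_ae h1)

end Pool.Agent.Helper86.Pic
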