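import Pool.Agent.Helper86.Pic.ALG
import Pool.Agent.Helper86.Pic.RED

set_option autoImplicit false

namespace Pool.Agent.Helper86.Pic

theorem algH : AlgH where
  act_mem := fun hg _ hp => act_mem hg hp
  act_mul := fun g _ hh _ hp => act_mul g hh hp
  act_one := act_one
  act_T := act_T
  T_mem_Gam := fun ha hb h => T_mem_Gam ha hb h
  hgt_T := fun h p => hgt_T h p
  uval_act := fun hg w _ hp => uval_act hg w hp
  uval_w0 := uval_w0

end Pool.Agent.Helper86.Pic
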